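import Mathlib

set_option autoImplicit false

/-!
# MP_ca1982_an, Q1: a compact set meeting every line, all of whose iterated sumsets are nowhere dense

The building block is the closed set `S` of all points `x` of the plane for which all but at most
one of the `k` numbers `m_i (x_1 + i x_2)`, `i < k`, are `ε`-close to integers, where `m_0, m_1, …` is
a lacunary sequence of integers. At most one of the linear forms is almost constant along a given
line, and the other ones can be made `ε`-close to integers one after the other; so every segment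
that is not very short contains a (shorter) segment in `S`. On the other hand, if `ℓ < k` and `y` is
a sum of `ℓ` points of `S`, then one of the `k` numbers `m_i (y_1 + i y_2)` is `ℓ ε`-close to an
integer; so the `ℓ`-fold sumset of `S` has holes everywhere.
-/

open Set

namespace Pool.Agent.Results.MP_ca1982_an.AllSumsets

/-- the unit square `[0, 1]²` -/
def square : Set (ℝ × ℝ) := {x | (0 ≤ x.1 ∧ x.1 ≤ 1) ∧ (0 ≤ x.2 ∧ x.2 ≤ 1)}

/-- the line through `p` with direction `v` -/
def line (p v : ℝ × ℝ) : Set (ℝ × ℝ) := {x | ∃ t : ℝ, x = p + t • v}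

/-- `ℓ K = {x₁ + ⋯ + x_ℓ : x_j ∈ K}` -/
def sumset (ℓ : ℕ) (K : Set (ℝ × ℝ)) : Set (ℝ × ℝ) :=
  {x | ∃ y : Fin ℓ → ℝ × ℝ, (∀ j, y j ∈ K) ∧ x = ∑ j, y j}

/-- the distance to the nearest integer -/
noncomputable def dd (t : ℝ) : ℝ := ‖(t : UnitAddCircle)‖

lemma dd_le (t : ℝ) (z : ℤ) : dd t ≤ |t - z| := by
  unfold dd
  rw [UnitAddCircle.norm_eq]
  exact round_le t z

lemma dd_cont : Continuous dd := by
  unfold dd
  exact (AddCircle.continuous_mk' (1 : ℝ)).norm

lemma dd_sum {ι : Type*} (s : Finset ι) (f : ι → ℝ) : dd (∑ j ∈ s, f j) ≤ ∑ j ∈ s, dd (f j) := by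
  classical
  induction s using Finset.induction_on with
  | empty => simp [dd]
  | insert a s ha ih =>
    rw [Finset.sum_insert ha, Finset.sum_insert ha]
    have h : dd (f a + ∑ j ∈ s, f j) ≤ dd (f a) + dd (∑ j ∈ s, f j) := by
      unfold dd
      rw [AddCircle.coe_add]
      exact norm_add_le _ _
    linarith

lemma dd_half (y : ℝ) : 1 / 2 - dd (y - 1 / 2) ≤ dd y := by
  have h1 : dd (1 / 2) = 1 / 2 := by
    unfold dd
    rw [UnitAddCircle.norm_eq]
    norm_num [round_two_inv]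
  have h2 : dd (1 / 2) ≤ dd y + dd (y - 1 / 2) := by
    unfold dd
    have : ((1 / 2 : ℝ) : UnitAddCircle) = (y : UnitAddCircle) - ((y - 1 / 2 : ℝ) : UnitAddCircle) := by
      rw [← AddCircle.coe_sub]
      congr 1
      ring
    rw [this]
    exact norm_sub_le _ _
  linarith

/-- A linear function that varies by at least one takes a value congruent to `c`. -/
lemma hit {α β c a b : ℝ} (hab : 1 ≤ |β| * (b - a)) :
    ∃ t, a ≤ t ∧ t ≤ b ∧ ∃ z : ℤ, α + β * t = z + c := by
  rcases lt_trichotomy β 0 with hβ | hβ | hβ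
  · rw [abs_of_neg hβ] at hab
    have h1 := Int.le_ceil (α + β * b - c)
    have h2 := Int.ceil_lt_add_one (α + β * b - c)
    refine ⟨(⌈α + β * b - c⌉ + c - α) / β, ?_, ?_, ⌈α + β * b - c⌉, ?_⟩
    · rw [le_div_iff_of_neg hβ]; nlinarith
    · rw [div_le_iff_of_neg hβ]; nlinarith
    · rw [mul_div_cancel₀ _ hβ.ne]; ring
  · subst hβ; norm_num at hab
  · rw [abs_of_pos hβ] at hab
    have h1 := Int.le_ceil (α + β * a - c)
    have h2 := Int.ceil_lt_add_one (α + β * a - c)
    refine ⟨(⌈α + β * a - c⌉ + c - α) / β, ?_, ?_, ⌈α + β * a - c⌉, ?_⟩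
    · rw [le_div_iff₀ hβ]; nlinarith
    · rw [div_le_iff₀ hβ]; nlinarith
    · rw [mul_div_cancel₀ _ hβ.ne']; ring

lemma step {α β c a b η : ℝ} (hη : 0 < η) (hη2 : η ≤ 1 / 2) (hab : 1 ≤ |β| * (b - a)) :
    ∃ a' b', a ≤ a' ∧ a' ≤ b' ∧ b' ≤ b ∧ b' - a' = η / |β| ∧
      ∀ t, a' ≤ t → t ≤ b' → dd (α + β * t - c) ≤ η := by
  have hβ : 0 < |β| := by
    rcases eq_or_ne β 0 with h | h
    · subst h; norm_num at hab
    · exact abs_pos.2 h
  obtain ⟨t0, h1, h2, z, hz⟩ := hit (α := α) (c := c) hab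
  have key : ∀ t, |t - t0| ≤ η / |β| → dd (α + β * t - c) ≤ η := by
    intro t ht
    refine (dd_le _ z).trans ?_
    have : α + β * t - c - z = β * (t - t0) := by linarith
    rw [this, abs_mul]
    calc |β| * |t - t0| ≤ |β| * (η / |β|) := by gcongr
      _ = η := by field_simp
  have hq : 0 < η / |β| := by positivity
  have h3 : 2 * (η / |β|) ≤ b - a := by
    have : 1 / |β| ≤ b - a := by rw [div_le_iff₀ hβ]; linarith
    have h4 : 2 * (η / |β|) ≤ 1 / |β| := by
      rw [← mul_div_assoc]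
      gcongr
      linarith
    linarith
  by_cases hc : t0 + η / |β| ≤ b
  · exact ⟨t0, t0 + η / |β|, h1, by linarith, hc, by ring, fun t ha hb => key t (by
      rw [abs_le]; constructor <;> linarith)⟩
  · push Not at hc
    exact ⟨t0 - η / |β|, t0, by linarith, by linarith, h2, by ring, fun t ha hb => key t (by
      rw [abs_le]; constructor <;> linarith)⟩

/-- Several linear functions with lacunary slopes, one after the other. -/
lemma nest {α β c m : ℕ → ℝ} {κ C η a b : ℝ} (act : ℕ → Prop) (hη : 0 < η) (hη2 : η ≤ 1 / 2)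
    (hκ : 0 < κ) (hC : 0 < C) (hm0 : ∀ i, 0 < m i) (hm : ∀ i, m i ≤ m (i + 1))
    (hm' : ∀ i, C / (κ * η) * m i ≤ m (i + 1)) (hlow : ∀ i, act i → κ * m i ≤ |β i|)
    (hupp : ∀ i, act i → |β i| ≤ C * m i) (hab : 1 ≤ κ * m 0 * (b - a)) (k : ℕ) :
    ∃ a' b', a ≤ a' ∧ b' ≤ b ∧ 1 ≤ κ * m k * (b' - a') ∧
      ∀ i < k, act i → ∀ t, a' ≤ t → t ≤ b' → dd (α i + β i * t - c i) ≤ η := by
  induction k with
  | zero => exact ⟨a, b, le_rfl, le_rfl, hab, fun i hi => absurd hi (Nat.not_lt_zero i)⟩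
  | succ k ih =>
    obtain ⟨a', b', h1, h2, h3, h4⟩ := ih
    have hpos : 0 < b' - a' := by
      by_contra hcon
      push Not at hcon
      have : κ * m k * (b' - a') ≤ 0 := mul_nonpos_of_nonneg_of_nonpos (by have := hm0 k; positivity) hcon
      linarith
    by_cases hk : act k
    · have hβ : 0 < |β k| := lt_of_lt_of_le (by have := hm0 k; positivity) (hlow k hk)
      have h5 : 1 ≤ |β k| * (b' - a') := h3.trans (by
        have := hlow k hk
        gcongr)
      obtain ⟨a'', b'', g1, g2, g3, g4, g5⟩ := step (α := α k) (c := c k) hη hη2 h5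
      refine ⟨a'', b'', h1.trans g1, g3.trans h2, ?_, ?_⟩
      · rw [g4]
        have e1 : η / (C * m k) ≤ η / |β k| := by
          have := hupp k hk
          gcongr
        have e2 : 1 = κ * (C / (κ * η) * m k) * (η / (C * m k)) := by
          have := hm0 k
          field_simp
        calc (1 : ℝ) = κ * (C / (κ * η) * m k) * (η / (C * m k)) := e2
          _ ≤ κ * m (k + 1) * (η / |β k|) := by
            have := hm0 k
            have := hm0 (k + 1)
            have := hm' k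
            gcongr
      · intro i hi hai t ht1 ht2
        rcases Nat.lt_succ_iff_lt_or_eq.1 hi with h | h
        · exact h4 i h hai t (g1.trans ht1) (ht2.trans g3)
        · subst h; exact g5 t ht1 ht2
    · refine ⟨a', b', h1, h2, h3.trans ?_, ?_⟩
      · have := hm k
        gcongr
      · intro i hi hai t ht1 ht2
        rcases Nat.lt_succ_iff_lt_or_eq.1 hi with h | h
        · exact h4 i h hai t ht1 ht2
        · subst h; exact absurd hai hk

/-- the `i`-th linear form -/
def phi (m : ℕ → ℝ) (i : ℕ) (x : ℝ × ℝ) : ℝ := m i * (x.1 + i * x.2)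

lemma phi_line (m : ℕ → ℝ) (i : ℕ) (p v : ℝ × ℝ) (t : ℝ) :
    phi m i (p + t • v) = phi m i p + phi m i v * t := by
  simp only [phi, Prod.fst_add, Prod.snd_add, Prod.smul_fst, Prod.smul_snd, smul_eq_mul]
  ring

lemma phi_sum (m : ℕ → ℝ) (i : ℕ) {ℓ : ℕ} (y : Fin ℓ → ℝ × ℝ) :
    phi m i (∑ j, y j) = ∑ j, phi m i (y j) := by
  simp only [phi, Prod.fst_sum, Prod.snd_sum, Finset.mul_sum, ← Finset.sum_add_distrib]

/-- all but at most one of the `k` forms are `ε`-close to integers -/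
def SS (m : ℕ → ℝ) (k : ℕ) (ε : ℝ) : Set (ℝ × ℝ) :=
  {x | ∃ i0 < k, ∀ i < k, i ≠ i0 → dd (phi m i x) ≤ ε}

lemma phi_cont (m : ℕ → ℝ) (i : ℕ) : Continuous (phi m i) := by
  unfold phi
  fun_prop

lemma SS_closed (m : ℕ → ℝ) (k : ℕ) (ε : ℝ) : IsClosed (SS m k ε) := by
  have : SS m k ε = ⋃ i0 ∈ Finset.range k, ⋂ i ∈ {i | i < k ∧ i ≠ i0}, {x | dd (phi m i x) ≤ ε} := by
    ext x
    simp only [SS, mem_ofPred_eq, Finset.mem_range, mem_iUnion, mem_iInter, exists_prop]
    constructor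
    · rintro ⟨i0, h, h'⟩
      exact ⟨i0, h, fun i hi => h' i hi.1 hi.2⟩
    · rintro ⟨i0, h, h'⟩
      exact ⟨i0, h, fun i hi hi' => h' i ⟨hi, hi'⟩⟩
  rw [this]
  refine Set.Finite.isClosed_biUnion (Finset.finite_toSet _) fun i0 _ => ?_
  refine isClosed_biInter fun i _ => ?_
  exact isClosed_le (dd_cont.comp (phi_cont m i)) continuous_const

/-- at most one of the forms is almost constant in the direction `v` -/
lemma good_dir {k : ℕ} {v : ℝ × ℝ} (hv : ‖v‖ = 1) {i j : ℕ} (hi : i < k) (hj : j < k)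
    (hij : i < j) (h1 : |v.1 + i * v.2| < 1 / (4 * k)) (h2 : |v.1 + j * v.2| < 1 / (4 * k)) : False := by
  have hk : (1 : ℝ) ≤ k := by exact_mod_cast (by omega : 1 ≤ k)
  have hik : (i : ℝ) ≤ k := by exact_mod_cast hi.le
  have hi0 : (0 : ℝ) ≤ i := Nat.cast_nonneg i
  have hd : (1 : ℝ) ≤ (j : ℝ) - i := by
    have : ((i + 1 : ℕ) : ℝ) ≤ (j : ℝ) := by exact_mod_cast hij
    push_cast at this
    linarith
  set q : ℝ := 1 / (4 * k) with hq
  have hq0 : 0 < q := by positivity
  have hqk : q * k = 1 / 4 := by rw [hq]; field_simp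
  rw [abs_lt] at h1 h2
  have hv2 : |v.2| < 2 * q := by
    rw [abs_lt]
    constructor
    · by_contra hcon
      push Not at hcon
      nlinarith
    · by_contra hcon
      push Not at hcon
      nlinarith
  have hv1 : |v.1| ≤ q + i * |v.2| := by
    have e1 : |v.1| ≤ |v.1 + i * v.2| + |i * v.2| := by
      have := abs_sub (v.1 + i * v.2) (i * v.2)
      simpa using this
    have e2 : |v.1 + i * v.2| ≤ q := abs_le.2 ⟨h1.1.le, h1.2.le⟩
    rw [abs_mul, abs_of_nonneg hi0] at e1
    linarith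
  have hv1' : |v.1| < 1 := by
    have : (i : ℝ) * |v.2| ≤ k * (2 * q) := by
      have := abs_nonneg v.2
      gcongr
    nlinarith
  have hv2' : |v.2| < 1 := by nlinarith
  have : ‖v‖ < 1 := by
    rw [Prod.norm_def, max_lt_iff]
    exact ⟨hv1', hv2'⟩
  linarith

/-- One stage of the construction: `S` contains a piece of length `δ'` of every segment of length
`δ`, and the `ℓ`-fold sumset of `S` has a hole at distance `δ` of every point, for `ℓ ≤ n`. -/
structure Stage (n : ℕ) (δ δ' : ℝ) (S : Set (ℝ × ℝ)) : Prop where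
  closed : IsClosed S
  corner : ∀ x ∈ (({0, 1} : Set ℝ) ×ˢ ({0, 1} : Set ℝ)), x ∈ S
  seg : ∀ p v : ℝ × ℝ, ‖v‖ = 1 → ∀ a b, δ ≤ b - a → ∃ a' b', a ≤ a' ∧ b' ≤ b ∧ δ' ≤ b' - a' ∧
    ∀ t, a' ≤ t → t ≤ b' → p + t • v ∈ S
  hole : ∀ ℓ ≤ n, ∀ x : ℝ × ℝ, ∃ t, 0 ≤ t ∧ t ≤ δ ∧ x + (t, 0) ∉ sumset ℓ S

lemma dd_int (z : ℤ) : dd z = 0 := by
  have h := dd_le z z
  rw [sub_self, abs_zero] at h
  exact le_antisymm h (norm_nonneg _)

lemma stage_exists (n : ℕ) (δ : ℝ) (hδ : 0 < δ) :
    ∃ (S : Set (ℝ × ℝ)) (δ' : ℝ), 0 < δ' ∧ Stage n δ δ' S := by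
  -- parameters
  obtain ⟨k, hk⟩ : ∃ k, k = n + 2 := ⟨_, rfl⟩
  have hk0 : (2 : ℝ) ≤ k := by exact_mod_cast (by omega : 2 ≤ k)
  set ε : ℝ := 1 / (4 * (n + 1)) with hε
  have hn0 : (0 : ℝ) ≤ n := Nat.cast_nonneg n
  have hε0 : 0 < ε := by positivity
  have hε1 : ε ≤ 1 / 4 := by
    rw [hε]
    apply one_div_le_one_div_of_le (by norm_num)
    linarith
  have hnε : n * ε < 1 / 4 := by
    rw [hε, mul_one_div, div_lt_div_iff₀ (by positivity) (by norm_num)]
    linarith
  set κ : ℝ := 1 / (4 * k) with hκ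
  have hκ0 : 0 < κ := by positivity
  have hκ1 : κ ≤ 1 := by
    rw [hκ, div_le_one (by positivity)]
    linarith
  obtain ⟨A, hA⟩ := exists_nat_ge (k / (κ * ε))
  have hA1 : (1 : ℝ) ≤ A := by
    refine le_trans ?_ hA
    rw [le_div_iff₀ (by positivity)]
    nlinarith
  obtain ⟨M, hM⟩ := exists_nat_ge (1 / (κ * δ))
  have hM0 : (0 : ℝ) < M := lt_of_lt_of_le (by positivity) hM
  have hMδ : 1 ≤ κ * M * δ := by
    rw [div_le_iff₀ (by positivity)] at hM
    linarith
  set m : ℕ → ℝ := fun i => M * A ^ i with hm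
  have hm0 : ∀ i, 0 < m i := fun i => by
    rw [hm]
    positivity
  have hmz : ∀ i, ∃ z : ℤ, m i = z := fun i => ⟨M * A ^ i, by rw [hm]; push_cast; rfl⟩
  have hmA : ∀ i, m (i + 1) = A * m i := fun i => by
    rw [hm]
    simp only
    ring
  have hm1 : ∀ i, m i ≤ m (i + 1) := fun i => by
    rw [hmA]
    have := hm0 i
    nlinarith
  have hm2 : ∀ i, k / (κ * ε) * m i ≤ m (i + 1) := fun i => by
    rw [hmA]
    have := hm0 i
    gcongr
  have hm00 : m 0 = M := by rw [hm]; simp
  refine ⟨SS m k ε, 1 / (κ * m k), by have := hm0 k; positivity, SS_closed m k ε, ?_, ?_, ?_⟩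
  · -- corners
    intro x hx
    refine ⟨0, by omega, fun i _ _ => ?_⟩
    obtain ⟨z, hz⟩ := hmz i
    obtain ⟨u, hu⟩ : ∃ u : ℤ, x.1 = u := by
      rcases hx.1 with h | h
      · exact ⟨0, by simpa using h⟩
      · exact ⟨1, by simpa using h⟩
    obtain ⟨w, hw⟩ : ∃ w : ℤ, x.2 = w := by
      rcases hx.2 with h | h
      · exact ⟨0, by simpa using h⟩
      · exact ⟨1, by simpa using h⟩
    have : phi m i x = ((z * (u + i * w) : ℤ) : ℝ) := by
      rw [phi, hz, hu, hw]
      push_cast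
      ring
    rw [this, dd_int]
    exact hε0.le
  · -- segments
    intro p v hv a b hab
    have hab' : 1 ≤ κ * m 0 * (b - a) := by
      rw [hm00]
      refine hMδ.trans ?_
      gcongr
    have hv1 : |v.1| ≤ 1 := by
      have := norm_fst_le v
      rw [hv] at this
      exact this
    have hv2 : |v.2| ≤ 1 := by
      have := norm_snd_le v
      rw [hv] at this
      exact this
    obtain ⟨a', b', h1, h2, h3, h4⟩ := nest (α := fun i => phi m i p) (β := fun i => phi m i v)
      (c := fun _ => 0) (m := m) (κ := κ) (C := k) (η := ε)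
      (fun i => i < k ∧ κ ≤ |v.1 + i * v.2|) hε0 (by linarith) hκ0 (by linarith) hm0 hm1 hm2
      (by
        rintro i ⟨_, hi⟩
        have := hm0 i
        rw [phi, abs_mul, abs_of_pos this, mul_comm]
        gcongr)
      (by
        rintro i ⟨hi, _⟩
        have hmi := hm0 i
        rw [phi, abs_mul, abs_of_pos hmi, mul_comm]
        have e1 : |v.1 + i * v.2| ≤ |v.1| + |i * v.2| := abs_add_le _ _
        rw [abs_mul, abs_of_nonneg (Nat.cast_nonneg i : (0 : ℝ) ≤ i)] at e1
        have e2 : (i : ℝ) + 1 ≤ k := by exact_mod_cast hi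
        have e3 : (i : ℝ) * |v.2| ≤ i := by
          have : (0 : ℝ) ≤ i := Nat.cast_nonneg i
          nlinarith
        gcongr
        linarith) hab' k
    refine ⟨a', b', h1, h2, ?_, ?_⟩
    · have := hm0 k
      rw [div_le_iff₀ (by positivity)]
      linarith
    · intro t ht1 ht2
      by_cases hall : ∀ i < k, κ ≤ |v.1 + i * v.2|
      · refine ⟨0, by omega, fun i hi _ => ?_⟩
        have := h4 i hi ⟨hi, hall i hi⟩ t ht1 ht2
        rwa [sub_zero, ← phi_line] at this
      · push Not at hall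
        obtain ⟨i0, hi0, hi0'⟩ := hall
        refine ⟨i0, hi0, fun i hi hne => ?_⟩
        have hgood : κ ≤ |v.1 + i * v.2| := by
          by_contra hcon
          push Not at hcon
          rcases lt_or_gt_of_ne hne with h | h
          · exact good_dir hv hi hi0 h hcon hi0'
          · exact good_dir hv hi0 hi h hi0' hcon
        have := h4 i hi ⟨hi, hgood⟩ t ht1 ht2
        rwa [sub_zero, ← phi_line] at this
  · -- holes
    intro ℓ hℓ x
    obtain ⟨a', b', h1, h2, h3, h4⟩ := nest (α := fun i => phi m i x) (β := fun i => m i)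
      (c := fun _ => 1 / 2) (m := m) (κ := κ) (C := k) (η := ε) (a := 0) (b := δ)
      (fun _ => True) hε0 (by linarith) hκ0 (by linarith) hm0 hm1 hm2
      (by
        intro i _
        have := hm0 i
        rw [abs_of_pos this]
        nlinarith)
      (by
        intro i _
        have := hm0 i
        rw [abs_of_pos this]
        nlinarith) (by rw [hm00, sub_zero]; exact hMδ) k
    have hab : a' ≤ b' := by
      by_contra hcon
      push Not at hcon
      have hmk := hm0 k
      have : κ * m k * (b' - a') ≤ 0 :=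
        mul_nonpos_of_nonneg_of_nonpos (by positivity) (by linarith)
      linarith
    refine ⟨a', h1, hab.trans h2, ?_⟩
    rintro ⟨z, hz, hxz⟩
    choose i0 hi0 hi0' using hz
    -- an index that is good for all summands
    obtain ⟨i, hik, hi⟩ : ∃ i < k, ∀ j, i0 j ≠ i := by
      by_contra hcon
      push Not at hcon
      have : Function.Surjective (fun j : Fin ℓ => (⟨i0 j, hi0 j⟩ : Fin k)) := by
        intro i
        obtain ⟨j, hj⟩ := hcon i i.2
        exact ⟨j, Fin.ext hj⟩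
      have := Fintype.card_le_of_surjective _ this
      simp only [Fintype.card_fin] at this
      omega
    have e1 : dd (phi m i (x + (a', 0))) ≤ ℓ * ε := by
      rw [hxz, phi_sum]
      refine (dd_sum _ _).trans ?_
      calc ∑ j, dd (phi m i (z j)) ≤ ∑ _j : Fin ℓ, ε :=
            Finset.sum_le_sum fun j _ => hi0' j i hik (Ne.symm (hi j))
        _ = ℓ * ε := by simp
    have e2 := h4 i hik trivial a' le_rfl hab
    have e3 := dd_half (phi m i (x + (a', 0)))
    have e4 : phi m i (x + (a', 0)) = phi m i x + m i * a' := by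
      simp only [phi, Prod.fst_add, Prod.snd_add]
      ring
    rw [← e4] at e2
    have e5 : (ℓ : ℝ) * ε ≤ n * ε := by
      have : (ℓ : ℝ) ≤ n := by exact_mod_cast hℓ
      gcongr
    linarith

lemma stages : ∃ (S : ℕ → Set (ℝ × ℝ)) (d : ℕ → ℝ), d 0 = 1 ∧ (∀ n, 0 < d n) ∧
    (∀ n, d (n + 1) ≤ d n / 2) ∧ ∀ n, Stage n (d n) (d (n + 1)) (S n) := by
  choose! S δ' hpos hst using stage_exists
  let D : ℕ → ℝ := fun n => Nat.rec 1 (fun n r => min (δ' n r) (r / 2)) n
  have hD0 : D 0 = 1 := rfl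
  have hDs : ∀ n, D (n + 1) = min (δ' n (D n)) (D n / 2) := fun n => rfl
  have hDpos : ∀ n, 0 < D n := by
    intro n
    induction n with
    | zero => rw [hD0]; norm_num
    | succ n ih =>
      rw [hDs]
      exact lt_min (hpos n _ ih) (by linarith)
  refine ⟨fun n => S n (D n), D, hD0, hDpos, fun n => by rw [hDs]; exact min_le_right _ _, ?_⟩
  intro n
  obtain ⟨h1, h2, h3, h4⟩ := hst n (D n) (hDpos n)
  refine ⟨h1, h2, ?_, h4⟩
  intro p v hv a b hab
  obtain ⟨a', b', g1, g2, g3, g4⟩ := h3 p v hv a b hab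
  exact ⟨a', b', g1, g2, (by rw [hDs]; exact min_le_left _ _ : D (n + 1) ≤ δ' n (D n)).trans g3, g4⟩

/-- the times at which a coordinate is in `[0, 1]` -/
lemma chord1 (q w : ℝ) (hw : w ≠ 0) (hw1 : |w| ≤ 1) : ∃ l u, 1 ≤ u - l ∧
    (∀ t, (l ≤ t ∧ t ≤ u) ↔ (0 ≤ q + t * w ∧ q + t * w ≤ 1)) ∧
    (q + l * w = 0 ∨ q + l * w = 1) ∧ (q + u * w = 0 ∨ q + u * w = 1) := by
  rcases lt_or_gt_of_ne hw with h | h
  · rw [abs_of_neg h] at hw1
    refine ⟨(1 - q) / w, -q / w, ?_, ?_, Or.inr (by field_simp; ring), Or.inl (by field_simp; ring)⟩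
    · rw [← sub_div, le_div_iff_of_neg h]
      linarith
    · intro t
      rw [div_le_iff_of_neg h, le_div_iff_of_neg h]
      constructor <;> rintro ⟨h1, h2⟩ <;> constructor <;> linarith
  · rw [abs_of_pos h] at hw1
    refine ⟨-q / w, (1 - q) / w, ?_, ?_, Or.inl (by field_simp; ring), Or.inr (by field_simp; ring)⟩
    · rw [← sub_div, le_div_iff₀ h]
      linarith
    · intro t
      rw [div_le_iff₀ h, le_div_iff₀ h]
      constructor <;> rintro ⟨h1, h2⟩ <;> constructor <;> linarith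

lemma mem_square_iff (p v : ℝ × ℝ) (t : ℝ) : p + t • v ∈ square ↔
    (0 ≤ p.1 + t * v.1 ∧ p.1 + t * v.1 ≤ 1) ∧ (0 ≤ p.2 + t * v.2 ∧ p.2 + t * v.2 ≤ 1) := by
  simp only [square, mem_ofPred_eq, Prod.fst_add, Prod.snd_add, Prod.smul_fst, Prod.smul_snd,
    smul_eq_mul]

/-- the chord of the square along a line is long or close to a corner -/
lemma chord {p v : ℝ × ℝ} (hv : ‖v‖ = 1) {t0 : ℝ} (ht0 : p + t0 • v ∈ square) :
    ∃ a b, a ≤ b ∧ (∀ t, a ≤ t → t ≤ b → p + t • v ∈ square) ∧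
      (1 ≤ b - a ∨ ∃ c ∈ (({0, 1} : Set ℝ) ×ˢ ({0, 1} : Set ℝ)),
        ∀ t, a ≤ t → t ≤ b → ‖p + t • v - c‖ ≤ b - a) := by
  have hv1 : |v.1| ≤ 1 := by
    have := norm_fst_le v
    rw [hv] at this
    exact this
  have hv2 : |v.2| ≤ 1 := by
    have := norm_snd_le v
    rw [hv] at this
    exact this
  have ht0' := (mem_square_iff p v t0).1 ht0
  by_cases h1 : v.1 = 0
  · have h2 : v.2 ≠ 0 := by
      intro h2
      have : v = 0 := Prod.ext h1 h2
      rw [this, norm_zero] at hv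
      norm_num at hv
    obtain ⟨l, u, hlu, hiff, -, -⟩ := chord1 p.2 v.2 h2 hv2
    refine ⟨l, u, by linarith, fun t ha hb => ?_, Or.inl hlu⟩
    rw [mem_square_iff]
    refine ⟨?_, (hiff t).1 ⟨ha, hb⟩⟩
    have := ht0'.1
    rw [h1] at this ⊢
    simpa using this
  by_cases h2 : v.2 = 0
  · obtain ⟨l, u, hlu, hiff, -, -⟩ := chord1 p.1 v.1 h1 hv1
    refine ⟨l, u, by linarith, fun t ha hb => ?_, Or.inl hlu⟩
    rw [mem_square_iff]
    refine ⟨(hiff t).1 ⟨ha, hb⟩, ?_⟩
    have := ht0'.2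
    rw [h2] at this ⊢
    simpa using this
  obtain ⟨l1, u1, hlu1, hiff1, hl1, hu1⟩ := chord1 p.1 v.1 h1 hv1
  obtain ⟨l2, u2, hlu2, hiff2, hl2, hu2⟩ := chord1 p.2 v.2 h2 hv2
  have hm1 := (hiff1 t0).2 ht0'.1
  have hm2 := (hiff2 t0).2 ht0'.2
  have hsub : ∀ t, max l1 l2 ≤ t → t ≤ min u1 u2 → p + t • v ∈ square := by
    intro t ha hb
    rw [mem_square_iff]
    exact ⟨(hiff1 t).1 ⟨(le_max_left _ _).trans ha, hb.trans (min_le_left _ _)⟩,
      (hiff2 t).1 ⟨(le_max_right _ _).trans ha, hb.trans (min_le_right _ _)⟩⟩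
  refine ⟨max l1 l2, min u1 u2, (max_le hm1.1 hm2.1).trans (le_min hm1.2 hm2.2), hsub, ?_⟩
  have close : ∀ s1 s2 : ℝ, (∀ t, max l1 l2 ≤ t → t ≤ min u1 u2 →
      |t - s1| ≤ min u1 u2 - max l1 l2 ∧ |t - s2| ≤ min u1 u2 - max l1 l2) →
      ∀ t, max l1 l2 ≤ t → t ≤ min u1 u2 →
        ‖p + t • v - (p.1 + s1 * v.1, p.2 + s2 * v.2)‖ ≤ min u1 u2 - max l1 l2 := by
    intro s1 s2 hs t ha hb
    obtain ⟨g1, g2⟩ := hs t ha hb
    rw [Prod.norm_def]
    simp only [Prod.fst_sub, Prod.snd_sub, Prod.fst_add, Prod.snd_add, Prod.smul_fst,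
      Prod.smul_snd, smul_eq_mul, Real.norm_eq_abs]
    refine max_le ?_ ?_
    · have : p.1 + t * v.1 - (p.1 + s1 * v.1) = (t - s1) * v.1 := by ring
      rw [this, abs_mul]
      have := abs_nonneg (t - s1)
      nlinarith
    · have : p.2 + t * v.2 - (p.2 + s2 * v.2) = (t - s2) * v.2 := by ring
      rw [this, abs_mul]
      have := abs_nonneg (t - s2)
      nlinarith
  rcases le_total l1 l2 with hl | hl
  · rcases le_total u1 u2 with hu | hu
    · -- from `l2` to `u1`
      rw [max_eq_right hl, min_eq_left hu] at close ⊢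
      refine Or.inr ⟨(p.1 + u1 * v.1, p.2 + l2 * v.2), ⟨hu1, hl2⟩, close u1 l2 ?_⟩
      intro t ha hb
      rw [abs_le, abs_le]
      refine ⟨⟨?_, ?_⟩, ?_, ?_⟩ <;> linarith
    · rw [max_eq_right hl, min_eq_right hu]
      exact Or.inl hlu2
  · rcases le_total u1 u2 with hu | hu
    · rw [max_eq_left hl, min_eq_left hu]
      exact Or.inl hlu1
    · rw [max_eq_left hl, min_eq_right hu] at close ⊢
      refine Or.inr ⟨(p.1 + l1 * v.1, p.2 + u2 * v.2), ⟨hl1, hu2⟩, close l1 u2 ?_⟩
      intro t ha hb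
      rw [abs_le, abs_le]
      refine ⟨⟨?_, ?_⟩, ?_, ?_⟩ <;> linarith

lemma sumset_compact {K : Set (ℝ × ℝ)} (hK : IsCompact K) (ℓ : ℕ) : IsCompact (sumset ℓ K) := by
  have : sumset ℓ K = (fun y : Fin ℓ → ℝ × ℝ => ∑ j, y j) '' (Set.pi univ fun _ => K) := by
    ext x
    constructor
    · rintro ⟨y, hy, rfl⟩
      exact ⟨y, fun j _ => hy j, rfl⟩
    · rintro ⟨y, hy, rfl⟩
      exact ⟨y, fun j => hy j (mem_univ j), rfl⟩
  rw [this]
  refine (isCompact_univ_pi fun _ => hK).image ?_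
  fun_prop

lemma square_compact : IsCompact square := by
  have : square = (Icc (0 : ℝ) 1) ×ˢ (Icc (0 : ℝ) 1) := by
    ext x
    simp only [square, mem_ofPred_eq, mem_prod, mem_Icc]
  rw [this]
  exact isCompact_Icc.prod isCompact_Icc

theorem result : ∃ K : Set (ℝ × ℝ), IsCompact K ∧ K ⊆ square ∧
    (∀ p v : ℝ × ℝ, v ≠ 0 → (line p v ∩ square).Nonempty → (line p v ∩ K).Nonempty) ∧
    ∀ ℓ : ℕ, 1 ≤ ℓ → IsNowhereDense (sumset ℓ K) := by
  obtain ⟨S, d, hd0, hdpos, hdhalf, hS⟩ := stages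
  have hdlim : Filter.Tendsto d Filter.atTop (nhds 0) := by
    have hle : ∀ n, d n ≤ (1 / 2) ^ n := by
      intro n
      induction n with
      | zero => rw [hd0]; simp
      | succ n ih =>
        rw [pow_succ]
        have := hdhalf n
        linarith
    exact squeeze_zero (fun n => (hdpos n).le) hle
      (tendsto_pow_atTop_nhds_zero_of_lt_one (by norm_num) (by norm_num))
  set cs : Set (ℝ × ℝ) := ({0, 1} : Set ℝ) ×ˢ ({0, 1} : Set ℝ) with hcs
  have hcsfin : cs.Finite := (Set.toFinite _).prod (Set.toFinite _)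
  have hclosed : ∀ r : ℝ, IsClosed {x : ℝ × ℝ | ∃ c ∈ cs, ‖x - c‖ ≤ r} := by
    intro r
    have : {x : ℝ × ℝ | ∃ c ∈ cs, ‖x - c‖ ≤ r} = ⋃ c ∈ cs, Metric.closedBall c r := by
      ext x
      simp [dist_eq_norm]
    rw [this]
    exact hcsfin.isClosed_biUnion fun c _ => Metric.isClosed_closedBall
  set K : Set (ℝ × ℝ) := square ∩ ⋂ n, (S n ∪ {x : ℝ × ℝ | ∃ c ∈ cs, ‖x - c‖ ≤ d n}) with hK
  have hKc : IsCompact K := by
    rw [hK]
    exact square_compact.inter_right
      (isClosed_iInter fun n => (hS n).closed.union (hclosed (d n)))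
  refine ⟨K, hKc, inter_subset_left, ?_, ?_⟩
  · -- lines
    rintro p v hv ⟨x, ⟨t0, rfl⟩, hx⟩
    -- normalise the direction
    set w : ℝ × ℝ := ‖v‖⁻¹ • v with hw
    have hw1 : ‖w‖ = 1 := by
      rw [hw, norm_smul, norm_inv, norm_norm, inv_mul_cancel₀ (norm_ne_zero_iff.2 hv)]
    have hx' : p + (t0 * ‖v‖) • w ∈ square := by
      rw [hw, smul_smul, mul_assoc, mul_inv_cancel₀ (norm_ne_zero_iff.2 hv), mul_one]
      exact hx
    suffices h : ∃ t : ℝ, p + t • w ∈ K by
      obtain ⟨t, ht⟩ := h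
      exact ⟨p + t • w, ⟨t * ‖v‖⁻¹, by rw [hw, smul_smul]⟩, ht⟩
    obtain ⟨a, b, hab, hsq, hcorner⟩ := chord hw1 hx'
    rcases hab.eq_or_lt with heq | hlt
    · -- the chord is a point: a corner
      rcases hcorner with h | ⟨c, hc, hcl⟩
      · rw [heq] at h
        norm_num at h
      · have h1 := hcl a le_rfl hab
        rw [heq, sub_self] at h1
        refine ⟨b, by rw [← heq]; exact hsq a le_rfl hab, mem_iInter.2 fun n => Or.inr ?_⟩
        exact ⟨c, hc, h1.trans (hdpos n).le⟩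
    · have hex : ∃ n, d n ≤ b - a :=
        ((hdlim.eventually (ge_mem_nhds (sub_pos.2 hlt))).exists)
      classical
      obtain ⟨n0, hn0, hmin⟩ : ∃ n0, d n0 ≤ b - a ∧ ∀ n < n0, b - a < d n :=
        ⟨Nat.find hex, Nat.find_spec hex, fun n hn => not_le.1 (Nat.find_min hex hn)⟩
      have hnest : ∀ i, ∃ a' b', a ≤ a' ∧ b' ≤ b ∧ d (n0 + i) ≤ b' - a' ∧
          ∀ j < i, ∀ t, a' ≤ t → t ≤ b' → p + t • w ∈ S (n0 + j) := by
        intro i
        induction i with
        | zero => exact ⟨a, b, le_rfl, le_rfl, hn0, fun j hj => absurd hj (Nat.not_lt_zero j)⟩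
        | succ i ih =>
          obtain ⟨a', b', h1, h2, h3, h4⟩ := ih
          obtain ⟨a'', b'', g1, g2, g3, g4⟩ := (hS (n0 + i)).seg p w hw1 a' b' h3
          refine ⟨a'', b'', h1.trans g1, g2.trans h2, g3, fun j hj t ht1 ht2 => ?_⟩
          rcases Nat.lt_succ_iff_lt_or_eq.1 hj with h | h
          · exact h4 j h t (g1.trans ht1) (ht2.trans g2)
          · subst h
            exact g4 t ht1 ht2
      have hpc : Continuous fun t : ℝ => p + t • w := by fun_prop
      obtain ⟨t, ht⟩ := IsCompact.nonempty_iInter_of_sequence_nonempty_isCompact_isClosed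
        (fun i : ℕ => Icc a b ∩ ⋂ j ∈ {j | j < i}, (fun t : ℝ => p + t • w) ⁻¹' S (n0 + j))
        (by
          intro i
          refine inter_subset_inter_right _ ?_
          exact biInter_subset_biInter_left fun j (hj : j < i) => (Nat.lt_succ_of_lt hj : j < i + 1))
        (by
          intro i
          obtain ⟨a', b', h1, h2, h3, h4⟩ := hnest i
          have := hdpos (n0 + i)
          refine ⟨a', ⟨h1, by linarith⟩, mem_iInter₂.2 fun j hj => ?_⟩
          exact h4 j hj a' le_rfl (by linarith))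
        (by
          refine isCompact_Icc.inter_right ?_
          exact isClosed_biInter fun j _ => (hS (n0 + j)).closed.preimage hpc)
        (by
          intro i
          refine isClosed_Icc.inter ?_
          exact isClosed_biInter fun j _ => (hS (n0 + j)).closed.preimage hpc)
      rw [mem_iInter] at ht
      have htab := (ht 0).1
      have htS : ∀ j, p + t • w ∈ S (n0 + j) := fun j =>
        (mem_iInter₂.1 (ht (j + 1)).2) j (Nat.lt_succ_self j)
      refine ⟨t, hsq t htab.1 htab.2, mem_iInter.2 fun n => ?_⟩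
      rcases le_or_gt n0 n with h | h
      · left
        have := htS (n - n0)
        rwa [Nat.add_sub_cancel' h] at this
      · right
        rcases hcorner with h' | ⟨c, hc, hcl⟩
        · exfalso
          have := hmin 0 (by omega)
          rw [hd0] at this
          linarith
        · exact ⟨c, hc, (hcl t htab.1 htab.2).trans (hmin n h).le⟩
  · intro ℓ hℓ
    rw [(sumset_compact hKc ℓ).isClosed.isNowhereDense_iff]
    -- the pieces
    set F : ℕ → Set (ℝ × ℝ) := fun j => sumset ℓ (square ∩ ⋂ n ∈ {n | j ≤ n}, S n) with hF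
    have hFc : ∀ j, IsClosed (F j) := fun j =>
      (sumset_compact (square_compact.inter_right
        (isClosed_biInter fun n _ => (hS n).closed)) ℓ).isClosed
    have hev : ∀ y ∈ K, ∃ N, ∀ n, N ≤ n → y ∈ S n := by
      rintro y ⟨hy1, hy2⟩
      by_cases hyc : y ∈ cs
      · exact ⟨0, fun n _ => (hS n).corner y hyc⟩
      · have : ∀ᶠ n in Filter.atTop, ∀ c ∈ cs, d n < ‖y - c‖ := by
          rw [Filter.eventually_all_finite hcsfin]
          intro c hc
          refine hdlim.eventually (gt_mem_nhds ?_)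
          rw [norm_pos_iff, sub_ne_zero]
          rintro rfl
          exact hyc hc
        obtain ⟨N, hN⟩ := Filter.eventually_atTop.1 this
        refine ⟨N, fun n hn => ?_⟩
        rcases mem_iInter.1 hy2 n with h | ⟨c, hc, hcl⟩
        · exact h
        · exact absurd hcl (not_le.2 (hN n hn c hc))
    have hcov : sumset ℓ K ⊆ ⋃ j, F j := by
      rintro x ⟨y, hy, rfl⟩
      choose N hN using fun j => hev (y j) (hy j)
      refine mem_iUnion.2 ⟨∑ j, N j, y, fun j => ⟨(hy j).1, mem_iInter₂.2 fun n hn => ?_⟩, rfl⟩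
      exact hN j n ((Finset.single_le_sum (fun i _ => Nat.zero_le (N i)) (Finset.mem_univ j)).trans hn)
    have hdense : ∀ j, Dense (F j)ᶜ := by
      intro j
      rw [Metric.dense_iff]
      intro x r hr
      obtain ⟨n, hn1, hn2, hn3⟩ : ∃ n, d n < r ∧ j ≤ n ∧ ℓ ≤ n := by
        have h1 := hdlim.eventually (gt_mem_nhds hr)
        obtain ⟨n, hn, hn'⟩ := (h1.and (Filter.eventually_ge_atTop (max j ℓ))).exists
        exact ⟨n, hn, (le_max_left _ _).trans hn', (le_max_right _ _).trans hn'⟩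
      obtain ⟨t, ht0, ht1, ht⟩ := (hS n).hole ℓ hn3 x
      refine ⟨x + (t, 0), ?_, fun hmem => ht ?_⟩
      · rw [Metric.mem_ball, dist_eq_norm, add_sub_cancel_left, Prod.norm_def]
        simp only [norm_zero, Real.norm_eq_abs]
        rw [abs_of_nonneg ht0, max_eq_left ht0]
        linarith
      · obtain ⟨y, hy, hxy⟩ := hmem
        exact ⟨y, fun i => mem_iInter₂.1 (hy i).2 n hn2, hxy⟩
    have hres := dense_iInter_of_isOpen (fun j => (hFc j).isOpen_compl) hdense
    by_contra hne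
    obtain ⟨x, hx1, hx2⟩ := hres.inter_open_nonempty _ isOpen_interior (nonempty_iff_ne_empty.2 hne)
    obtain ⟨j, hj⟩ := mem_iUnion.1 (hcov (interior_subset hx1))
    exact (mem_iInter.1 hx2 j) hj

end Pool.Agent.Results.MP_ca1982_an.AllSumsets
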